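import Pool.Agent.H162R2.LC.Stmts

open Finset

namespace H162R2.LC

theorem exists_inj_dir {n : ℕ} (p : Fin n → ℝ × ℝ) (hp : Function.Injective p) :
    ∃ m : ℝ, Function.Injective fun u => (p u).1 + m * (p u).2 := by
  have hfin : (⋃ q : Fin n × Fin n, {m : ℝ | q.1 ≠ q.2 ∧
      (p q.1).1 + m * (p q.1).2 = (p q.2).1 + m * (p q.2).2}).Finite := by
    refine Set.finite_iUnion fun q => ?_
    refine Set.Subsingleton.finite ?_
    rintro m1 ⟨hq, h1⟩ m2 ⟨_, h2⟩
    by_contra hne
    have h3 : (m1 - m2) * ((p q.1).2 - (p q.2).2) = 0 := by linarith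
    have h4 : (p q.1).2 = (p q.2).2 := by
      rcases mul_eq_zero.1 h3 with h | h
      · exact absurd (sub_eq_zero.1 h) hne
      · linarith
    have h5 : (p q.1).1 = (p q.2).1 := by rw [h4] at h1; linarith
    exact hq (hp (Prod.ext h5 h4))
  obtain ⟨m, hm⟩ := hfin.infinite_compl.nonempty
  refine ⟨m, fun u w h => ?_⟩
  by_contra hne
  exact hm (Set.mem_iUnion.2 ⟨(u, w), hne, h⟩)

theorem exists_cut {n : ℕ} (f : Fin n → ℝ) (hf : Function.Injective f) :
    ∀ i : ℕ, i ≤ n → ∃ c : ℝ, (∀ u, f u ≠ c) ∧ (univ.filter fun u => f u < c).card = i := by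
  intro i
  induction i with
  | zero =>
    intro _
    obtain ⟨c, hc⟩ := (Set.finite_range f).bddBelow
    refine ⟨c - 1, fun u h => ?_, ?_⟩
    · have := hc (Set.mem_range_self u)
      linarith
    · rw [Finset.card_eq_zero, Finset.filter_eq_empty_iff]
      intro u _
      have := hc (Set.mem_range_self u)
      linarith
  | succ i ih =>
    intro hi
    obtain ⟨c, hc1, hc2⟩ := ih (by omega)
    have hne : (univ.filter fun u => c < f u).Nonempty := by
      by_contra hemp
      rw [Finset.not_nonempty_iff_eq_empty, Finset.filter_eq_empty_iff] at hemp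
      have : (univ.filter fun u => f u < c) = univ := by
        ext u
        simp only [mem_filter, mem_univ, true_and, iff_true]
        rcases lt_or_gt_of_ne (hc1 u) with h | h
        · exact h
        · exact absurd h (hemp (mem_univ u))
      rw [this, Finset.card_univ, Fintype.card_fin] at hc2
      omega
    obtain ⟨u0, hu0, hmin⟩ := Finset.exists_min_image _ f hne
    simp only [mem_filter, mem_univ, true_and] at hu0 hmin
    have hc' : ∃ c' : ℝ, f u0 < c' ∧ ∀ w, f u0 < f w → c' < f w := by
      by_cases hT : (univ.filter fun w => f u0 < f w).Nonempty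
      · obtain ⟨w0, hw0, hw0min⟩ := Finset.exists_min_image _ f hT
        simp only [mem_filter, mem_univ, true_and] at hw0 hw0min
        refine ⟨(f u0 + f w0) / 2, by linarith, fun w hw => ?_⟩
        have := hw0min w hw
        linarith
      · rw [Finset.not_nonempty_iff_eq_empty, Finset.filter_eq_empty_iff] at hT
        exact ⟨f u0 + 1, by linarith, fun w hw => absurd hw (hT (mem_univ w))⟩
    obtain ⟨c', h1, h2⟩ := hc'
    refine ⟨c', fun u h => ?_, ?_⟩
    · have := h2 u (by rw [h]; exact h1)
      linarith
    · have heq : (univ.filter fun u => f u < c') = insert u0 (univ.filter fun u => f u < c) := by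
        ext u
        simp only [mem_filter, mem_univ, true_and, mem_insert]
        constructor
        · intro hu
          by_cases huc : f u < c
          · exact Or.inr huc
          · left
            have huc' : c < f u := lt_of_le_of_ne (not_lt.1 huc) (fun h => hc1 u h.symm)
            have h3 := hmin u huc'
            rcases h3.lt_or_eq with h | h
            · have := h2 u h
              linarith
            · exact (hf h).symm
        · rintro (rfl | hu)
          · exact h1
          · linarith
      rw [heq, Finset.card_insert_of_notMem, hc2]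
      simp only [mem_filter, mem_univ, true_and, not_lt]
      exact hu0.le

theorem t_C1 : T_C1 := by
  intro n p hp i hi
  obtain ⟨m, hm⟩ := exists_inj_dir p hp
  obtain ⟨c, hc1, hc2⟩ := exists_cut _ hm i hi
  refine ⟨1, m, c, ⟨Or.inl one_ne_zero, fun u h => ?_⟩, ?_⟩
  · unfold aff at h
    exact hc1 u (by linarith)
  · rw [← hc2]
    apply congrArg Finset.card
    refine Finset.filter_congr fun u _ => ?_
    unfold aff
    constructor <;> intro h <;> linarith

end H162R2.LC
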