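import Pool.Agent.H162R2.LC.Stmts

open Finset

namespace H162R2.LC

theorem t_E : T_E := by
  classical
  intro n p G a b c hav A B hAB
  unfold eIn
  rw [← Finset.card_union_of_disjoint]
  · refine le_trans (Finset.card_le_card ?_) (le_trans (card_union_le _ _)
      (Nat.add_le_add_right (le_trans (card_union_le _ _)
        (Nat.add_le_add (card_union_le _ _) (card_union_le _ _))) _))
    intro e he
    simp only [mem_union, mem_filter, mem_univ, true_and] at he
    induction e using Sym2.ind with
    | _ u v =>
      simp only [mem_union]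
      unfold sepE
      simp only [mem_filter, mem_univ, true_and]
      rcases lt_or_gt_of_ne (hav.2 u) with hu | hu <;>
        rcases lt_or_gt_of_ne (hav.2 v) with hv | hv
      · rcases he with ⟨he1, he2⟩ | ⟨he1, he2⟩
        · left; right; left
          refine ⟨he1, fun x hx => ⟨he2 x hx, ?_⟩⟩
          rcases Sym2.mem_iff.1 hx with rfl | rfl <;> assumption
        · left; right; right
          refine ⟨he1, fun x hx => ⟨he2 x hx, ?_⟩⟩
          rcases Sym2.mem_iff.1 hx with rfl | rfl <;> assumption
      · right
        rcases he with ⟨he1, he2⟩ | ⟨he1, he2⟩ <;>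
        exact ⟨he1, v, u, Sym2.eq_swap, hv, hu⟩
      · right
        rcases he with ⟨he1, he2⟩ | ⟨he1, he2⟩ <;>
        exact ⟨he1, u, v, rfl, hu, hv⟩
      · rcases he with ⟨he1, he2⟩ | ⟨he1, he2⟩
        · left; left; left
          refine ⟨he1, fun x hx => ⟨he2 x hx, ?_⟩⟩
          rcases Sym2.mem_iff.1 hx with rfl | rfl <;> assumption
        · left; left; right
          refine ⟨he1, fun x hx => ⟨he2 x hx, ?_⟩⟩
          rcases Sym2.mem_iff.1 hx with rfl | rfl <;> assumption
  · rw [Finset.disjoint_left]
    intro e h1 h2
    simp only [mem_filter, mem_univ, true_and] at h1 h2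
    induction e using Sym2.ind with
    | _ u v =>
      have hu : u ∈ s(u, v) := by simp
      exact Finset.disjoint_left.1 hAB (h1.2 u hu) (h2.2 u hu)

end H162R2.LC
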