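import Pool.Agent.H162R2.LC.Stmts

open Finset

namespace H162R2.LC

theorem t_E0 : T_E0 := by
  classical
  intro n p G
  constructor
  · intro S
    unfold eIn
    rw [← Finset.card_powersetCard 2 S]
    refine Finset.card_le_card_of_injOn (fun e : Sym2 (Fin n) => univ.filter fun x => x ∈ e) ?_ ?_
    · intro e he
      simp only [coe_filter, mem_univ, true_and, Set.mem_setOf_eq] at he
      obtain ⟨he1, he2⟩ := he
      refine Finset.mem_coe.2 (Finset.mem_powersetCard.2 ⟨?_, ?_⟩)
      · intro x hx
        simp only [mem_filter, mem_univ, true_and] at hx
        exact he2 x hx
      · induction e using Sym2.ind with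
        | _ a b =>
          have hab : a ≠ b := by
            intro h
            subst h
            exact G.loopless.irrefl _ ((SimpleGraph.mem_edgeSet G).1 he1)
          have : (univ.filter fun x : Fin n => x ∈ s(a, b)) = {a, b} := by
            ext x
            simp
          show (univ.filter fun x : Fin n => x ∈ s(a, b)).card = 2
          rw [this, Finset.card_pair hab]
    · intro e1 _ e2 _ h
      apply Sym2.ext
      intro x
      have := Finset.ext_iff.1 h x
      simpa using this
  · intro a b c hav
    unfold eAll eIn
    refine le_trans (Finset.card_le_card ?_) (le_trans (card_union_le _ _)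
      (Nat.add_le_add_right (card_union_le _ _) _))
    intro e he
    simp only [mem_filter, mem_univ, true_and] at he
    induction e using Sym2.ind with
    | _ u v =>
      rcases lt_or_gt_of_ne (hav.2 u) with hu | hu <;>
        rcases lt_or_gt_of_ne (hav.2 v) with hv | hv
      · refine mem_union_left _ (mem_union_left _ ?_)
        simp only [mem_filter, mem_univ, true_and]
        refine ⟨he, fun x hx => ?_⟩
        rcases Sym2.mem_iff.1 hx with rfl | rfl <;> assumption
      · refine mem_union_right _ ?_
        unfold sepE
        simp only [mem_filter, mem_univ, true_and]
        exact ⟨he, v, u, Sym2.eq_swap, hv, hu⟩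
      · refine mem_union_right _ ?_
        unfold sepE
        simp only [mem_filter, mem_univ, true_and]
        exact ⟨he, u, v, rfl, hu, hv⟩
      · refine mem_union_left _ (mem_union_right _ ?_)
        simp only [mem_filter, mem_univ, true_and]
        refine ⟨he, fun x hx => ?_⟩
        rcases Sym2.mem_iff.1 hx with rfl | rfl <;> assumption

end H162R2.LC
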