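import Pool.Agent.H162R2.LC.Stmts

open Finset

namespace H162R2.LC

theorem t_G : T_G := by
  intro n p hp hcol
  refine ⟨hp, fun a b c hab => ?_⟩
  by_contra hcard
  rw [not_le, Finset.two_lt_card] at hcard
  obtain ⟨i, hi, j, hj, k, hk, hij, hik, hjk⟩ := hcard
  simp only [mem_filter, mem_univ, true_and] at hi hj hk
  apply hcol i j k hij hjk hik
  have hmem : p i ∈ ({p i, p j, p k} : Set (ℝ × ℝ)) := by simp
  rw [collinear_iff_of_mem hmem]
  refine ⟨((-b, a) : ℝ × ℝ), ?_⟩
  have key : ∀ z : ℝ × ℝ, aff a b c z = 0 → ∃ r : ℝ, z = r • ((-b, a) : ℝ × ℝ) +ᵥ p i := by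
    intro z hz
    unfold aff at hz hi
    by_cases hb : b = 0
    · have ha : a ≠ 0 := by
        rcases hab with h | h
        · exact h
        · exact absurd hb h
      refine ⟨(z.2 - (p i).2) / a, ?_⟩
      subst hb
      have h1 : z.1 = (p i).1 := by
        have : a * (z.1 - (p i).1) = 0 := by linarith
        rcases mul_eq_zero.1 this with h | h
        · exact absurd h ha
        · linarith
      ext
      · simp [h1]
      · simp
        field_simp
        ring
    · refine ⟨-(z.1 - (p i).1) / b, ?_⟩
      have h2 : a * (z.1 - (p i).1) = - (b * (z.2 - (p i).2)) := by linarith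
      ext
      · simp
        field_simp
        ring
      · simp
        have h3 : -(z.1 - (p i).1) / b * a = z.2 - (p i).2 := by
          rw [div_mul_eq_mul_div, div_eq_iff hb]
          linarith
        rw [neg_sub] at h3
        rw [h3]
        ring
  intro z hz
  rcases hz with rfl | rfl | rfl
  · exact key _ hi
  · exact key _ hj
  · exact key _ hk

end H162R2.LC
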